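import Pool.Agent.Y416.TA.Real

/-!
# The exact set of values of the amplitude function of paths

The earlier result of this repository (`TreeAmplitude`) gives one tree, the spider with `15` legs
of length `3`, with a configuration `x` such that `Re A_T(x) < 0`.

Here the values of the amplitude function of all paths are determined: the complex numbers `w` of
the form `A_P(x)`, for a path `P` with at least one edge and an admissible configuration `x`, are
exactly `1` and all `w` with `|w| > 1`.  So the inequality `Re A_T(x) ≥ 1` already fails for paths,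
and the real part has no lower bound; the only restriction is on the modulus.

The notions (`E3`, `omega`, `Admissible`, `IsSpinorChoice`, `IsHalf`, `amplitude`) are those of
`Pool.Agent.Results.MP_84cbe7_co.TreeAmplitude`; `pathG n` is the path with the `n + 2` vertices
`0, 1, …, n + 1`, consecutive numbers being adjacent.
-/

open Pool.Agent.Y416.TA (pathG)
open Pool.Agent.Results.MP_84cbe7_co.TreeAmplitude (E3 IsSpinorChoice IsHalf amplitude Admissible)

namespace Pool.Agent.Results.MP_84cbe7_co.PathValues

/-- `A_G(x) = w`: spinors `ψ` and halves `Δ` as in the definition of the amplitude function exist,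
and the quotient defining the amplitude function equals `w` for all of them. -/
def HasAmplitude {V : Type} [Fintype V] [DecidableEq V] (G : SimpleGraph V)
    [DecidableRel G.Adj] (x : V → E3) (w : ℂ) : Prop :=
  (∃ ψ : G.Dart → Fin 2 → ℂ, IsSpinorChoice G x ψ) ∧ (∃ Δ : Finset G.Dart, IsHalf G Δ) ∧
    ∀ (ψ : G.Dart → Fin 2 → ℂ) (Δ : Finset G.Dart), IsSpinorChoice G x ψ → IsHalf G Δ →
      amplitude G ψ Δ = w

/-- **Values of the amplitude function of paths.**
(1) The graphs `pathG n` are trees.
(2) The value of the amplitude function of a path at an admissible configuration (computed with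
any spinors and any half) is `1` or has modulus larger than `1`.
(3) `1` and every complex number of modulus larger than `1` is a value of the amplitude function
of a path.
(4) In particular the real parts are not bounded below: for every real `R` there are a path and an
admissible configuration of it whose amplitude has real part less than `R`. -/
theorem result :
    (∀ n : ℕ, (pathG n).IsTree) ∧
    (∀ (n : ℕ) (x : Fin (n + 2) → E3), Admissible (pathG n) x →
      ∀ (ψ : (pathG n).Dart → Fin 2 → ℂ) (Δ : Finset (pathG n).Dart),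
        IsSpinorChoice (pathG n) x ψ → IsHalf (pathG n) Δ →
          amplitude (pathG n) ψ Δ = 1 ∨ 1 < ‖amplitude (pathG n) ψ Δ‖) ∧
    (∀ w : ℂ, w = 1 ∨ 1 < ‖w‖ →
      ∃ (n : ℕ) (x : Fin (n + 2) → E3), Admissible (pathG n) x ∧ HasAmplitude (pathG n) x w) ∧
    (∀ R : ℝ, ∃ (n : ℕ) (x : Fin (n + 2) → E3) (w : ℂ),
      Admissible (pathG n) x ∧ HasAmplitude (pathG n) x w ∧ w.re < R) := by
  have h3 : ∀ w : ℂ, w = 1 ∨ 1 < ‖w‖ →
      ∃ (n : ℕ) (x : Fin (n + 2) → E3), Admissible (pathG n) x ∧ HasAmplitude (pathG n) x w := by
    intro w hw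
    have hmem : w ∈ Pool.Agent.Y416.TA.WW := by
      rcases hw with rfl | h
      · exact Pool.Agent.Y416.TA.one_mem
      · exact Pool.Agent.Y416.TA.all_mem w h
    obtain ⟨D, n, hD, hn⟩ := hmem
    refine ⟨n, Pool.Agent.Y416.TA.xx D n, Pool.Agent.Y416.TA.xx_admissible D hD n,
      Pool.Agent.Y416.TA.xx_choice D hD n, Pool.Agent.Y416.TA.phalf_exists n, ?_⟩
    intro ψ Δ hψ hΔ
    rw [Pool.Agent.Y416.TA.xx_amplitude D hD n ψ Δ hψ hΔ, hn]
  refine ⟨Pool.Agent.Y416.TA.pathG_isTree,
    fun n x _ ψ Δ hψ hΔ => Pool.Agent.Y416.TA.dichotomy n x ψ Δ hψ hΔ, h3, ?_⟩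
  intro R
  set w : ℂ := ((-(|R| + 2) : ℝ) : ℂ) with hw
  have hR := abs_nonneg R
  have hn : 1 < ‖w‖ := by
    rw [hw, Complex.norm_real, Real.norm_eq_abs, abs_neg, abs_of_pos (by linarith)]
    linarith
  obtain ⟨n, x, h1, h2⟩ := h3 w (Or.inr hn)
  refine ⟨n, x, w, h1, h2, ?_⟩
  rw [hw, Complex.ofReal_re]
  have := neg_abs_le R
  linarith

end Pool.Agent.Results.MP_84cbe7_co.PathValues
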